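import Pool.Agent.H38.AE.Targets

/-! Module L: the count of the exceptional triples for given parameters. -/

set_option autoImplicit false

namespace Pool.Agent.H31.AE

open Pool.Agent.H38.AE

theorem tri_finite (H : ℕ) : (Tri H).Finite := by
  apply Set.Finite.subset (s := Set.Icc (-(H : ℤ)) H ×ˢ (Set.Icc (-(H : ℤ)) H ×ˢ
    Set.Icc (-(H : ℤ)) H))
  · exact (Set.finite_Icc _ _).prod ((Set.finite_Icc _ _).prod (Set.finite_Icc _ _))
  · rintro ⟨x, y, z⟩ ⟨-, -, -, -, -, -, -, h1, h2, h3⟩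
    simp only [Set.mem_prod, Set.mem_Icc]
    exact ⟨abs_le.mp h1, abs_le.mp h2, abs_le.mp h3⟩

theorem su_sub (H : ℕ) (Z κ : ℝ) (D K : ℕ) : SU H Z κ D K ⊆ Tri H := by
  rintro t ((h | h) | h) <;> exact h.1

theorem rad_mul {a b : ℕ} (h : a.Coprime b) : rad (a * b) = rad a * rad b := by
  unfold rad
  rw [h.primeFactors_mul, Finset.prod_union h.disjoint_primeFactors]

theorem rad_tri {H : ℕ} {t : ℤ × ℤ × ℤ} (ht : t ∈ Tri H) :
    RR t.1 * RR t.2.1 * RR t.2.2 = (rad (t.1 * t.2.1 * t.2.2).natAbs : ℝ) := by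
  obtain ⟨-, -, -, h12, h13, h23, -⟩ := ht
  rw [Int.isCoprime_iff_nat_coprime] at h12 h13 h23
  unfold RR
  rw [Int.natAbs_mul, Int.natAbs_mul, rad_mul (Nat.Coprime.mul_left h13 h23), rad_mul h12]
  push_cast
  ring

/-- The six permutations of the coordinates. -/
def per (i : Fin 6) (s : ℤ × ℤ × ℤ) : ℤ × ℤ × ℤ :=
  ![(s.1, s.2.1, s.2.2), (s.1, s.2.2, s.2.1), (s.2.1, s.1, s.2.2), (s.2.1, s.2.2, s.1),
    (s.2.2, s.1, s.2.1), (s.2.2, s.2.1, s.1)] i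

theorem per_card (G S : Set (ℤ × ℤ × ℤ)) (hS : S.Finite)
    (h : ∀ t ∈ G, ∃ x y z : ℤ, (x, y, z) ∈ S ∧
      (t = (x, y, z) ∨ t = (x, z, y) ∨ t = (y, x, z) ∨ t = (y, z, x) ∨ t = (z, x, y) ∨
        t = (z, y, x))) : G.ncard ≤ 6 * S.ncard := by
  have hsub : G ⊆ ⋃ i ∈ (Finset.univ : Finset (Fin 6)), per i '' S := by
    intro t ht
    obtain ⟨x, y, z, hs, hc⟩ := h t ht
    simp only [Finset.mem_univ, Set.iUnion_true, Set.mem_iUnion, Set.mem_image]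
    rcases hc with hc | hc | hc | hc | hc | hc
    · exact ⟨0, _, hs, hc.symm⟩
    · exact ⟨1, _, hs, hc.symm⟩
    · exact ⟨2, _, hs, hc.symm⟩
    · exact ⟨3, _, hs, hc.symm⟩
    · exact ⟨4, _, hs, hc.symm⟩
    · exact ⟨5, _, hs, hc.symm⟩
  have hfin : (⋃ i ∈ (Finset.univ : Finset (Fin 6)), per i '' S).Finite :=
    Set.Finite.biUnion (Finset.finite_toSet _) (fun i _ => hS.image _)
  calc G.ncard ≤ (⋃ i ∈ (Finset.univ : Finset (Fin 6)), per i '' S).ncard :=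
        Set.ncard_le_ncard hsub hfin
    _ ≤ ∑ i ∈ (Finset.univ : Finset (Fin 6)), (per i '' S).ncard :=
        Finset.set_ncard_biUnion_le _ _
    _ ≤ ∑ _i ∈ (Finset.univ : Finset (Fin 6)), S.ncard :=
        Finset.sum_le_sum fun i _ => Set.ncard_image_le hS
    _ = 6 * S.ncard := by simp

theorem log_bd (e : ℝ) (he : 0 < e) (N : ℕ) (hN : 1 ≤ N) :
    ((Nat.log 2 (2 * N) + 1 : ℕ) : ℝ) ≤ (1 / (e * Real.log 2) + 1) * ((2 * N : ℕ) : ℝ) ^ e := by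
  have h1 : (Nat.log 2 (2 * N) : ℝ) ≤ Real.logb ((2 : ℕ) : ℝ) ((2 * N : ℕ) : ℝ) :=
    Real.natLog_le_logb _ _
  have hl2 : 0 < Real.log 2 := Real.log_pos (by norm_num)
  have h2N : (1 : ℝ) ≤ ((2 * N : ℕ) : ℝ) := by
    have : 1 ≤ 2 * N := by omega
    exact_mod_cast this
  have h2 : Real.log ((2 * N : ℕ) : ℝ) ≤ ((2 * N : ℕ) : ℝ) ^ e / e :=
    Real.log_le_rpow_div (by linarith) he
  have h3 : (1 : ℝ) ≤ ((2 * N : ℕ) : ℝ) ^ e := Real.one_le_rpow h2N he.le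
  have h4 : Real.logb ((2 : ℕ) : ℝ) ((2 * N : ℕ) : ℝ) ≤
      (1 / (e * Real.log 2)) * ((2 * N : ℕ) : ℝ) ^ e := by
    unfold Real.logb
    rw [Nat.cast_ofNat, div_le_iff₀ hl2]
    calc Real.log ((2 * N : ℕ) : ℝ) ≤ ((2 * N : ℕ) : ℝ) ^ e / e := h2
      _ = 1 / (e * Real.log 2) * ((2 * N : ℕ) : ℝ) ^ e * Real.log 2 := by
        field_simp
  push_cast at *
  linarith

theorem pf_L : T_J1 → T_J2 → T_J3 → T_K → T_L := by
  intro hJ1 hJ2 hJ3 hK D M θ κ hM hθ1 hθ2 hκ hrel hc1 hc2 hHD ε hε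
  have hM0 : 0 < M := by linarith
  have hlam0 : 0 < 1 / M := by positivity
  have hlam1 : 1 / M ≤ 1 := by rw [div_le_one hM0]; exact hM
  obtain ⟨C0, K, hC0, hKK⟩ := hK D (1 / M) θ κ hlam0 hlam1 hθ1 hθ2 hκ hrel hc1 hc2
  obtain ⟨C1, hC1, h1⟩ := hJ1 (ε / 2) (by linarith)
  obtain ⟨C2, hC2, h2⟩ := hJ2 (ε / 2) (by linarith)
  obtain ⟨C3, hC3, h3⟩ := hJ3 D K κ (ε / 2) hκ (by linarith) hHD
  have hθ0 : 0 < θ := by linarith
  obtain ⟨G, hGdef⟩ : ∃ G : ℕ → Set (ℤ × ℤ × ℤ), ∀ H t, t ∈ G H ↔ (t ∈ Tri H ∧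
    ((H : ℤ) < 2 * |t.1| ∨ (H : ℤ) < 2 * |t.2.1| ∨ (H : ℤ) < 2 * |t.2.2|) ∧
    RR t.1 * RR t.2.1 * RR t.2.2 ≤ (H : ℝ) ^ (1 / M)) :=
    ⟨fun H => {t | t ∈ Tri H ∧
      ((H : ℤ) < 2 * |t.1| ∨ (H : ℤ) < 2 * |t.2.1| ∨ (H : ℤ) < 2 * |t.2.2|) ∧
      RR t.1 * RR t.2.1 * RR t.2.2 ≤ (H : ℝ) ^ (1 / M)}, fun H t => Iff.rfl⟩
  have hG : ∀ H : ℕ, 1 ≤ H → ((G H).ncard : ℝ) ≤
      6 * ((C1 + C2 + C3) * C0) * (H : ℝ) ^ (ε / 2 + θ * (1 / M)) := by
    intro H hH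
    have hH0 : (0 : ℝ) < H := by exact_mod_cast hH
    have hZ : 0 ≤ C0 * (H : ℝ) ^ (θ * (1 / M)) := by positivity
    have ha := h1 H _ hH hZ
    have hb := h2 H _ hH hZ
    have hc := h3 H _ hH hZ
    have hfin : (SU H (C0 * (H : ℝ) ^ (θ * (1 / M))) κ D K).Finite :=
      (tri_finite H).subset (su_sub _ _ _ _ _)
    have hcardSU : ((SU H (C0 * (H : ℝ) ^ (θ * (1 / M))) κ D K).ncard : ℝ) ≤
        (ST H (C0 * (H : ℝ) ^ (θ * (1 / M)))).ncard +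
        (SE H (C0 * (H : ℝ) ^ (θ * (1 / M)))).ncard +
        (SJ H (C0 * (H : ℝ) ^ (θ * (1 / M))) κ D K).ncard := by
      unfold SU
      have hu := (Set.ncard_union_le (ST H (C0 * (H : ℝ) ^ (θ * (1 / M))) ∪
        SE H (C0 * (H : ℝ) ^ (θ * (1 / M)))) (SJ H (C0 * (H : ℝ) ^ (θ * (1 / M))) κ D K)).trans
        (Nat.add_le_add_right (Set.ncard_union_le _ _) _)
      exact_mod_cast hu
    have h6 := per_card (G H) _ hfin (by
      intro t ht
      rw [hGdef] at ht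
      exact hKK H t hH ht.1 ht.2.1 ht.2.2)
    have h6' : ((G H).ncard : ℝ) ≤
        6 * ((SU H (C0 * (H : ℝ) ^ (θ * (1 / M))) κ D K).ncard : ℝ) := by exact_mod_cast h6
    rw [Real.rpow_add hH0]
    calc ((G H).ncard : ℝ) ≤ 6 * ((SU H (C0 * (H : ℝ) ^ (θ * (1 / M))) κ D K).ncard : ℝ) := h6'
      _ ≤ 6 * (C1 * (H : ℝ) ^ (ε / 2) * (C0 * (H : ℝ) ^ (θ * (1 / M))) +
          C2 * (H : ℝ) ^ (ε / 2) * (C0 * (H : ℝ) ^ (θ * (1 / M))) +
          C3 * (H : ℝ) ^ (ε / 2) * (C0 * (H : ℝ) ^ (θ * (1 / M)))) := by linarith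
      _ = 6 * ((C1 + C2 + C3) * C0) * ((H : ℝ) ^ (ε / 2) * (H : ℝ) ^ (θ * (1 / M))) := by ring
  have hl2 : 0 < Real.log 2 := Real.log_pos (by norm_num)
  refine ⟨(1 / (ε / 2 * Real.log 2) + 1) * (6 * ((C1 + C2 + C3) * C0)) *
    (2 : ℝ) ^ (θ / M + ε), by positivity, ?_⟩
  intro N hN
  -- covering by the dyadic levels
  have hsub : Exc M N ⊆ ⋃ i ∈ Finset.range (Nat.log 2 (2 * N) + 1), G (2 ^ i) := by
    rintro ⟨x, y, z⟩ ⟨htri, hexc⟩
    have hrad := rad_tri htri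
    obtain ⟨hx, hy, hz, hxy, hxz, hyz, hsum, hxN, hyN, hzN⟩ := htri
    simp only at hx hy hz hxy hxz hyz hsum hxN hyN hzN hexc hrad
    rw [Int.abs_eq_natAbs] at hxN hyN hzN
    set m : ℕ := max (max x.natAbs y.natAbs) z.natAbs with hm
    have hm1 : 1 ≤ m := by
      have : 1 ≤ x.natAbs := Int.natAbs_pos.mpr hx
      omega
    have hmN : m ≤ N := by omega
    set i : ℕ := Nat.clog 2 m with hi
    have hle : m ≤ 2 ^ i := Nat.le_pow_clog (by norm_num) m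
    have hlt : 2 ^ i < 2 * m := by
      rcases Nat.lt_or_ge 1 m with h | h
      · have h5 := Nat.pow_pred_clog_lt_self (b := 2) (by norm_num) h
        have h6 : 0 < Nat.clog 2 m := Nat.clog_pos (by norm_num) (by omega)
        have h7 : 2 ^ i = 2 * 2 ^ (Nat.clog 2 m).pred := by
          have h8 : i = (Nat.clog 2 m).pred + 1 := by
            rw [Nat.pred_eq_sub_one]
            omega
          rw [← pow_succ', ← h8]
        omega
      · have : m = 1 := by omega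
        rw [hi, this]
        simp
    have hi2 : i < Nat.log 2 (2 * N) + 1 := by
      have : i ≤ Nat.log 2 (2 * N) := Nat.le_log_of_pow_le (by norm_num) (by omega)
      omega
    simp only [Set.mem_iUnion, Finset.mem_range]
    refine ⟨i, hi2, ?_⟩
    rw [hGdef]
    have hleZ : (m : ℤ) ≤ ((2 ^ i : ℕ) : ℤ) := by exact_mod_cast hle
    have hltZ : ((2 ^ i : ℕ) : ℤ) < 2 * (m : ℤ) := by exact_mod_cast hlt
    refine ⟨⟨hx, hy, hz, hxy, hxz, hyz, hsum, ?_, ?_, ?_⟩, ?_, ?_⟩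
    · simp only [Int.abs_eq_natAbs]; omega
    · simp only [Int.abs_eq_natAbs]; omega
    · simp only [Int.abs_eq_natAbs]; omega
    · simp only [Int.abs_eq_natAbs]; omega
    · simp only
      rw [hrad]
      have hmR : (rad (x * y * z).natAbs : ℝ) ^ M < (m : ℝ) := by
        have hxm : |(x : ℝ)| ≤ m := by
          rw [← Int.cast_abs]
          have : |x| ≤ (m : ℤ) := by rw [Int.abs_eq_natAbs]; omega
          exact_mod_cast this
        have hym : |(y : ℝ)| ≤ m := by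
          rw [← Int.cast_abs]
          have : |y| ≤ (m : ℤ) := by rw [Int.abs_eq_natAbs]; omega
          exact_mod_cast this
        have hzm : |(z : ℝ)| ≤ m := by
          rw [← Int.cast_abs]
          have : |z| ≤ (m : ℤ) := by rw [Int.abs_eq_natAbs]; omega
          exact_mod_cast this
        rcases hexc with h | h | h
        · exact h.trans_le hxm
        · exact h.trans_le hym
        · exact h.trans_le hzm
      have hr0 : (0 : ℝ) ≤ (rad (x * y * z).natAbs : ℝ) := Nat.cast_nonneg _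
      have hR : (rad (x * y * z).natAbs : ℝ) ^ M ≤ ((2 ^ i : ℕ) : ℝ) := by
        have : (m : ℝ) ≤ ((2 ^ i : ℕ) : ℝ) := by exact_mod_cast hle
        linarith
      calc (rad (x * y * z).natAbs : ℝ)
          = ((rad (x * y * z).natAbs : ℝ) ^ M) ^ (1 / M) := by
            rw [← Real.rpow_mul hr0, mul_one_div_cancel hM0.ne', Real.rpow_one]
        _ ≤ ((2 ^ i : ℕ) : ℝ) ^ (1 / M) :=
            Real.rpow_le_rpow (Real.rpow_nonneg hr0 _) hR hlam0.le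
  have hfinG : ∀ H, (G H).Finite := by
    intro H
    apply (tri_finite H).subset
    intro t ht
    rw [hGdef] at ht
    exact ht.1
  have hfinU : (⋃ i ∈ Finset.range (Nat.log 2 (2 * N) + 1), G (2 ^ i)).Finite :=
    Set.Finite.biUnion (Finset.finite_toSet _) (fun i _ => hfinG _)
  have hcard : (Exc M N).ncard ≤ ∑ i ∈ Finset.range (Nat.log 2 (2 * N) + 1), (G (2 ^ i)).ncard :=
    (Set.ncard_le_ncard hsub hfinU).trans (Finset.set_ncard_biUnion_le _ _)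
  have hcardR : ((Exc M N).ncard : ℝ) ≤
      ∑ i ∈ Finset.range (Nat.log 2 (2 * N) + 1), ((G (2 ^ i)).ncard : ℝ) := by
    exact_mod_cast hcard
  have hN0 : (0 : ℝ) < N := by exact_mod_cast hN
  have h2N0 : (0 : ℝ) < ((2 * N : ℕ) : ℝ) := by push_cast; positivity
  have hterm : ∀ i ∈ Finset.range (Nat.log 2 (2 * N) + 1), ((G (2 ^ i)).ncard : ℝ) ≤
      6 * ((C1 + C2 + C3) * C0) * ((2 * N : ℕ) : ℝ) ^ (ε / 2 + θ * (1 / M)) := by
    intro i hi
    have hi' : i ≤ Nat.log 2 (2 * N) := by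
      have := Finset.mem_range.mp hi
      omega
    have hpow : 2 ^ i ≤ 2 * N := Nat.pow_le_of_le_log (by omega) hi'
    refine (hG (2 ^ i) Nat.one_le_two_pow).trans ?_
    apply mul_le_mul_of_nonneg_left _ (by positivity)
    apply Real.rpow_le_rpow (Nat.cast_nonneg _) (by exact_mod_cast hpow) (by positivity)
  have hsumle := Finset.sum_le_sum hterm
  rw [Finset.sum_const, Finset.card_range, nsmul_eq_mul] at hsumle
  have hlog := log_bd (ε / 2) (by linarith) N hN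
  have hexp : ((2 * N : ℕ) : ℝ) ^ (ε / 2) * ((2 * N : ℕ) : ℝ) ^ (ε / 2 + θ * (1 / M)) =
      (2 : ℝ) ^ (θ / M + ε) * (N : ℝ) ^ (θ / M + ε) := by
    rw [← Real.rpow_add h2N0, ← Real.mul_rpow (by norm_num) hN0.le]
    congr 1
    · push_cast; ring
    · field_simp
      ring
  calc ((Exc M N).ncard : ℝ)
      ≤ ((Nat.log 2 (2 * N) + 1 : ℕ) : ℝ) * (6 * ((C1 + C2 + C3) * C0) *
          ((2 * N : ℕ) : ℝ) ^ (ε / 2 + θ * (1 / M))) := hcardR.trans hsumle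
    _ ≤ ((1 / (ε / 2 * Real.log 2) + 1) * ((2 * N : ℕ) : ℝ) ^ (ε / 2)) *
          (6 * ((C1 + C2 + C3) * C0) * ((2 * N : ℕ) : ℝ) ^ (ε / 2 + θ * (1 / M))) :=
        mul_le_mul_of_nonneg_right hlog (by positivity)
    _ = (1 / (ε / 2 * Real.log 2) + 1) * (6 * ((C1 + C2 + C3) * C0)) *
          (((2 * N : ℕ) : ℝ) ^ (ε / 2) * ((2 * N : ℕ) : ℝ) ^ (ε / 2 + θ * (1 / M))) := by ring
    _ = (1 / (ε / 2 * Real.log 2) + 1) * (6 * ((C1 + C2 + C3) * C0)) *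
          (2 : ℝ) ^ (θ / M + ε) * (N : ℝ) ^ (θ / M + ε) := by
        rw [hexp]; ring

end Pool.Agent.H31.AE
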