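import Pool.Agent.H38.AE.Targets

/-! Module HO: Hölder's inequality for averages. -/

set_option autoImplicit false

namespace Pool.Agent.H31.AE

open Pool.Agent.H38.AE

theorem amgm_le {ι : Type} (J : Finset ι) (w z : ι → ℝ) (hw : ∀ i ∈ J, 0 ≤ w i)
    (hw1 : ∑ i ∈ J, w i ≤ 1) (hz : ∀ i ∈ J, 0 ≤ z i) :
    ∏ i ∈ J, z i ^ w i ≤ ∑ i ∈ J, w i * z i + (1 - ∑ i ∈ J, w i) := by
  classical
  have h := Real.geom_mean_le_arith_mean_weighted (Finset.insertNone J)
    (fun o => Option.elim o (1 - ∑ i ∈ J, w i) w) (fun o => Option.elim o 1 z) ?_ ?_ ?_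
  · rw [Finset.prod_insertNone, Finset.sum_insertNone] at h
    simp only [Option.elim, Real.one_rpow, one_mul, mul_one] at h
    linarith
  · intro o ho
    cases o with
    | none => simp only [Option.elim]; linarith
    | some i => exact hw i (Finset.some_mem_insertNone.mp ho)
  · rw [Finset.sum_insertNone]
    simp only [Option.elim]
    ring
  · intro o ho
    cases o with
    | none => simp only [Option.elim]; norm_num
    | some i => exact hz i (Finset.some_mem_insertNone.mp ho)

theorem pf_HO : T_HO := by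
  classical
  intro ι κ S J f n hS hf hn hsum
  have hcard : (0 : ℝ) < S.card := by exact_mod_cast hS.card_pos
  have hBnn : ∀ i ∈ J, 0 ≤ (∑ s ∈ S, f i s ^ (2 * n i)) / (S.card : ℝ) := by
    intro i hi
    exact div_nonneg (Finset.sum_nonneg fun s hs => pow_nonneg (hf i hi s hs) _) hcard.le
  by_cases hz : ∃ i ∈ J, (∑ s ∈ S, f i s ^ (2 * n i)) / (S.card : ℝ) = 0
  · obtain ⟨i, hi, h0⟩ := hz
    have h1 : ∑ s ∈ S, f i s ^ (2 * n i) = 0 := by
      rcases div_eq_zero_iff.mp h0 with h | h
      · exact h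
      · exact absurd h hcard.ne'
    have h2 : ∀ s ∈ S, f i s = 0 := by
      intro s hs
      have h3 := (Finset.sum_eq_zero_iff_of_nonneg
        (fun s hs => pow_nonneg (hf i hi s hs) (2 * n i))).mp h1 s hs
      exact pow_eq_zero_iff (by have := hn i hi; omega) |>.mp h3
    have h4 : ∑ s ∈ S, ∏ i ∈ J, f i s ^ 2 = 0 := by
      apply Finset.sum_eq_zero
      intro s hs
      apply Finset.prod_eq_zero hi
      rw [h2 s hs]
      norm_num
    rw [h4, zero_div]
    exact Finset.prod_nonneg fun i hi => Real.rpow_nonneg (hBnn i hi) _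
  · push Not at hz
    have hBpos : ∀ i ∈ J, 0 < (∑ s ∈ S, f i s ^ (2 * n i)) / (S.card : ℝ) :=
      fun i hi => lt_of_le_of_ne (hBnn i hi) (Ne.symm (hz i hi))
    set B : ι → ℝ := fun i => (∑ s ∈ S, f i s ^ (2 * n i)) / (S.card : ℝ) with hB
    have hP : 0 ≤ ∏ i ∈ J, B i ^ ((1 : ℝ) / n i) :=
      Finset.prod_nonneg fun i hi => Real.rpow_nonneg (hBnn i hi) _
    have hpt : ∀ s ∈ S, ∏ i ∈ J, f i s ^ 2 ≤ (∏ i ∈ J, B i ^ ((1 : ℝ) / n i)) *
        (∑ i ∈ J, ((1 : ℝ) / n i) * (f i s ^ (2 * n i) / B i) +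
          (1 - ∑ i ∈ J, (1 : ℝ) / n i)) := by
      intro s hs
      have h1 : ∏ i ∈ J, f i s ^ 2 = (∏ i ∈ J, B i ^ ((1 : ℝ) / n i)) *
          ∏ i ∈ J, (f i s ^ (2 * n i) / B i) ^ ((1 : ℝ) / n i) := by
        rw [← Finset.prod_mul_distrib]
        apply Finset.prod_congr rfl
        intro i hi
        have hni : (n i : ℝ) ≠ 0 := by
          have := hn i hi
          positivity
        have hfi := hf i hi s hs
        have hBi := hBpos i hi
        rw [Real.div_rpow (pow_nonneg hfi _) hBi.le]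
        have h2 : (f i s ^ (2 * n i)) ^ ((1 : ℝ) / n i) = f i s ^ 2 := by
          rw [pow_mul, one_div]
          exact Real.pow_rpow_inv_natCast (pow_nonneg hfi 2) (by have := hn i hi; omega)
        rw [h2]
        have h3 : B i ^ ((1 : ℝ) / n i) ≠ 0 := (Real.rpow_pos_of_pos hBi _).ne'
        have h4 : B i = (∑ s ∈ S, f i s ^ (2 * n i)) / (S.card : ℝ) := rfl
        rw [← h4]
        field_simp
      rw [h1]
      apply mul_le_mul_of_nonneg_left _ hP
      apply amgm_le
      · intro i hi; positivity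
      · exact hsum
      · intro i hi
        exact div_nonneg (pow_nonneg (hf i hi s hs) _) (hBnn i hi)
    have hsumle := Finset.sum_le_sum hpt
    rw [div_le_iff₀ hcard]
    refine hsumle.trans ?_
    rw [← Finset.mul_sum]
    apply mul_le_mul_of_nonneg_left _ hP
    rw [Finset.sum_add_distrib, Finset.sum_comm]
    have h5 : ∀ i ∈ J, ∑ s ∈ S, ((1 : ℝ) / n i) * (f i s ^ (2 * n i) / B i) =
        ((1 : ℝ) / n i) * S.card := by
      intro i hi
      rw [← Finset.mul_sum, ← Finset.sum_div]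
      have hBi := hBpos i hi
      have h6 : ∑ s ∈ S, f i s ^ (2 * n i) = B i * S.card :=
        (div_mul_cancel₀ _ hcard.ne').symm
      rw [h6, mul_div_cancel_left₀ _ (show B i ≠ 0 from hBi.ne')]
    rw [Finset.sum_congr rfl h5, ← Finset.sum_mul]
    simp only [Finset.sum_const, nsmul_eq_mul]
    apply le_of_eq
    ring

end Pool.Agent.H31.AE
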